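import Mathlib

/-!
# Total domination versus matching number with two vertices outside triangles

Let `f ≥ 3`. Take the complete graph on `f` vertices, join every vertex but one to one vertex of a
new triangle, and join the last vertex to an end of a new path with two vertices. The graph is
connected, has `4 f - 1` vertices, all but two of them lie in triangles, its total domination
number is `2 f` and its matching number is at most `2 f - 1`. So the inequality `γ_t ≤ α'` fails
in `𝒢_2`.

The vertices are `(i, a)`, `i < f`, `a < 4`, without `(0, 3)`: `(i, 0)` is the vertex `i` of the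
complete graph, `(i, 1)` is its neighbour in the triangle `(i, 1), (i, 2), (i, 3)`, for `i = 0` in
the path `(0, 1), (0, 2)`.
-/

set_option autoImplicit false

namespace Pool.Agent.Results.MP_7cc4cd_co.TwoExceptions

variable {V : Type} [Fintype V] [DecidableEq V]

/-- The vertex `v` lies in a triangle. -/
def InTriangle (G : SimpleGraph V) (v : V) : Prop :=
  ∃ a b : V, G.Adj v a ∧ G.Adj v b ∧ G.Adj a b

/-- The class `𝒢_k`: every connected component has at least four vertices and all but at most `k`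
vertices lie in a triangle. -/
def InClass (k : ℕ) (G : SimpleGraph V) : Prop :=
  (∀ c : G.ConnectedComponent, 4 ≤ c.supp.ncard) ∧ {v : V | ¬ InTriangle G v}.ncard ≤ k

/-- Every vertex has a neighbour in `S`. -/
def TotalDominating (G : SimpleGraph V) (S : Finset V) : Prop := ∀ v, ∃ u ∈ S, G.Adj v u

/-- The total domination number. -/
noncomputable def gammaT (G : SimpleGraph V) : ℕ :=
  sInf {k | ∃ S : Finset V, TotalDominating G S ∧ S.card = k}

/-- `M` is a matching: a set of pairwise disjoint edges. -/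
def IsMatching (G : SimpleGraph V) (M : Finset (Sym2 V)) : Prop :=
  (∀ e ∈ M, e ∈ G.edgeSet) ∧ ∀ e ∈ M, ∀ f ∈ M, ∀ v, v ∈ e → v ∈ f → e = f

/-- The matching number. -/
noncomputable def matchingNum (G : SimpleGraph V) : ℕ :=
  sSup {k | ∃ M : Finset (Sym2 V), IsMatching G M ∧ M.card = k}

theorem two_mul_card_le {G : SimpleGraph V} {M : Finset (Sym2 V)} (hM : IsMatching G M) :
    2 * M.card ≤ Fintype.card V := by
  have h : (M.biUnion fun e => e.toFinset).card = ∑ e ∈ M, e.toFinset.card := by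
    refine Finset.card_biUnion ?_
    intro e he f hf hne
    rw [Function.onFun, Finset.disjoint_left]
    intro v h1 h2
    rw [Sym2.mem_toFinset] at h1 h2
    exact hne (hM.2 e he f hf v h1 h2)
  have h2 : ∀ e ∈ M, e.toFinset.card = 2 := by
    intro e he
    refine Sym2.card_toFinset_of_not_isDiag e ?_
    exact G.not_isDiag_of_mem_edgeSet (hM.1 e he)
  rw [Finset.sum_congr rfl h2, Finset.sum_const, smul_eq_mul] at h
  have h3 := Finset.card_le_univ (M.biUnion fun e => e.toFinset)
  omega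

theorem matchingNum_le {G : SimpleGraph V} {k : ℕ} (h : Fintype.card V ≤ 2 * k + 1) :
    matchingNum G ≤ k := by
  refine csSup_le ⟨0, ∅, ⟨by simp, by simp⟩, rfl⟩ ?_
  rintro l ⟨M, hM, rfl⟩
  have := two_mul_card_le hM
  omega

/-- the vertices: `(i, a)` with `(i, a) ≠ (0, 3)` -/
abbrev W (f : ℕ) : Type := {p : Fin f × Fin 4 // ¬ (p.1.val = 0 ∧ p.2 = 3)}

/-- The adjacency inside of one of the `f` parts: the path `0 - 1 - 2` with the triangle
`1, 2, 3`. -/
def inner (a b : Fin 4) : Bool :=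
  ![![false, true, false, false], ![true, false, true, true], ![false, true, false, true],
    ![false, true, true, false]] a b

/-- the graph -/
def K (f : ℕ) : SimpleGraph (W f) where
  Adj x y := (x.1.1 = y.1.1 ∧ inner x.1.2 y.1.2 = true) ∨
    (x.1.1 ≠ y.1.1 ∧ x.1.2 = 0 ∧ y.1.2 = 0)
  symm := ⟨by
    have hs : ∀ a b : Fin 4, inner a b = inner b a := by decide
    rintro x y (⟨h1, h2⟩ | ⟨h1, h2, h3⟩)
    · exact Or.inl ⟨h1.symm, by rw [hs]; exact h2⟩
    · exact Or.inr ⟨h1.symm, h3, h2⟩⟩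
  loopless := ⟨by
    have hi : ∀ a : Fin 4, inner a a = false := by decide
    rintro x (⟨-, h⟩ | ⟨h, -⟩)
    · rw [hi] at h; exact Bool.noConfusion h
    · exact h rfl⟩

/-- the vertex `(i, a)`, `a ≤ 2` -/
def vx {f : ℕ} (i : Fin f) (a : Fin 4) (h : a ≠ 3) : W f := ⟨(i, a), fun h' => h h'.2⟩

theorem card_W (f : ℕ) (hf : 1 ≤ f) : Fintype.card (W f) = 4 * f - 1 := by
  have h1 : Fintype.card {p : Fin f × Fin 4 // p.1.val = 0 ∧ p.2 = 3} = 1 := by
    rw [Fintype.card_eq_one_iff]
    refine ⟨⟨(⟨0, hf⟩, 3), rfl, rfl⟩, ?_⟩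
    rintro ⟨⟨i, a⟩, h⟩
    apply Subtype.ext
    apply Prod.ext
    · exact Fin.ext h.1
    · exact h.2
  have h2 := Fintype.card_subtype_compl (fun p : Fin f × Fin 4 => p.1.val = 0 ∧ p.2 = 3)
  rw [h1, Fintype.card_prod, Fintype.card_fin, Fintype.card_fin] at h2
  rw [h2]
  omega

theorem connected_K (f : ℕ) (hf : 1 ≤ f) : (K f).Connected := by
  have h0 : ∀ i : Fin f, (K f).Reachable (vx i 0 (by decide)) (vx ⟨0, hf⟩ 0 (by decide)) := by
    intro i
    by_cases hi : i = ⟨0, hf⟩
    · rw [hi]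
    · exact SimpleGraph.Adj.reachable (Or.inr ⟨hi, rfl, rfl⟩)
  have h1 : ∀ i : Fin f, (K f).Reachable (vx i 1 (by decide)) (vx ⟨0, hf⟩ 0 (by decide)) := by
    intro i
    have e : (K f).Adj (vx i 1 (by decide)) (vx i 0 (by decide)) := Or.inl ⟨rfl, rfl⟩
    exact (SimpleGraph.Adj.reachable e).trans (h0 i)
  have h : ∀ v : W f, (K f).Reachable v (vx ⟨0, hf⟩ 0 (by decide)) := by
    rintro ⟨⟨i, a⟩, hv⟩
    fin_cases a
    · exact h0 i
    · exact h1 i
    · have e : (K f).Adj (⟨(i, 2), hv⟩ : W f) (vx i 1 (by decide)) := Or.inl ⟨rfl, rfl⟩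
      exact (SimpleGraph.Adj.reachable e).trans (h1 i)
    · have e : (K f).Adj (⟨(i, 3), hv⟩ : W f) (vx i 1 (by decide)) := Or.inl ⟨rfl, rfl⟩
      exact (SimpleGraph.Adj.reachable e).trans (h1 i)
  have : Nonempty (W f) := ⟨vx ⟨0, hf⟩ 0 (by decide)⟩
  exact ⟨fun u v => (h u).trans (h v).symm⟩

/-- the part with index `i` -/
def part {f : ℕ} (S : Finset (W f)) (i : Fin f) : Finset (W f) := S.filter fun x => x.1.1 = i

theorem card_parts {f : ℕ} (S : Finset (W f)) : ∑ i, (part S i).card = S.card := by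
  rw [Finset.card_eq_sum_card_fiberwise (f := fun x : W f => x.1.1) (t := Finset.univ)
    (fun _ _ => Finset.mem_coe.2 (Finset.mem_univ _))]
  rfl

/-- Every total dominating set has at least two vertices in every part. -/
theorem two_le_part {f : ℕ} (S : Finset (W f)) (hS : TotalDominating (K f) S) (i : Fin f) :
    2 ≤ (part S i).card := by
  -- a neighbour of `(i, 2)` and then a neighbour of `(i, 1)` or of `(i, 3)`
  obtain ⟨u, hu, hau⟩ := hS (vx i 2 (by decide))
  have hu1 : u.1.1 = i ∧ inner 2 u.1.2 = true := by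
    rcases hau with ⟨h1, h2⟩ | ⟨-, h2, -⟩
    · exact ⟨h1.symm, h2⟩
    · exact absurd h2 (by show ¬ ((2 : Fin 4) = 0); decide)
  have hex : ∃ w ∈ S, w.1.1 = i ∧ w ≠ u := by
    have hcases : ∀ b : Fin 4, inner 2 b = true → b = 1 ∨ b = 3 := by decide
    rcases hcases _ hu1.2 with hb | hb
    · -- `u = (i, 1)`: take a neighbour of `(i, 1)`
      obtain ⟨w, hw, haw⟩ := hS (vx i 1 (by decide))
      rcases haw with ⟨h1, h2⟩ | ⟨-, h2, -⟩
      · refine ⟨w, hw, h1.symm, ?_⟩
        rintro rfl
        have h3 : inner 1 w.1.2 = true := h2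
        rw [hb] at h3
        exact absurd h3 (by decide)
      · exact absurd h2 (by show ¬ ((1 : Fin 4) = 0); decide)
    · -- `u = (i, 3)`: take a neighbour of `(i, 3)`
      have hne : ¬ ((i : Fin f).val = 0 ∧ (3 : Fin 4) = 3) := by
        have h4 := u.2
        rwa [hu1.1, hb] at h4
      obtain ⟨w, hw, haw⟩ := hS (⟨(i, 3), hne⟩ : W f)
      rcases haw with ⟨h1, h2⟩ | ⟨-, h2, -⟩
      · refine ⟨w, hw, h1.symm, ?_⟩
        rintro rfl
        have h3 : inner 3 w.1.2 = true := h2
        rw [hb] at h3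
        exact absurd h3 (by decide)
      · exact absurd h2 (by show ¬ ((3 : Fin 4) = 0); decide)
  obtain ⟨w, hw, hwi, hwu⟩ := hex
  have hsub : ({u, w} : Finset (W f)) ⊆ part S i := by
    intro x hx
    rw [Finset.mem_insert, Finset.mem_singleton] at hx
    rcases hx with rfl | rfl
    · exact Finset.mem_filter.2 ⟨hu, hu1.1⟩
    · exact Finset.mem_filter.2 ⟨hw, hwi⟩
  have h2 : ({u, w} : Finset (W f)).card = 2 := Finset.card_pair (Ne.symm hwu)
  rw [← h2]
  exact Finset.card_le_card hsub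

theorem gammaT_ge (f : ℕ) : 2 * f ≤ gammaT (K f) := by
  refine le_csInf ⟨_, Finset.univ, ?_, rfl⟩ ?_
  · rintro ⟨⟨i, a⟩, hv⟩
    have h : ∀ a : Fin 4, ∃ b : Fin 4, b ≠ 3 ∧ inner a b = true := by decide
    obtain ⟨b, hb, hab⟩ := h a
    exact ⟨vx i b hb, Finset.mem_univ _, Or.inl ⟨rfl, hab⟩⟩
  · rintro k ⟨S, hS, rfl⟩
    rw [← card_parts S]
    calc 2 * f = ∑ _i : Fin f, 2 := by simp [mul_comm]
      _ ≤ _ := Finset.sum_le_sum fun i _ => two_le_part S hS i

theorem gammaT_le (f : ℕ) : gammaT (K f) ≤ 2 * f := by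
  classical
  set S : Finset (W f) := Finset.univ.filter fun x => x.1.2 = 0 ∨ x.1.2 = 1 with hSd
  have hS : TotalDominating (K f) S := by
    rintro ⟨⟨i, a⟩, hv⟩
    have h : ∀ a : Fin 4, ∃ b : Fin 4, b ≠ 3 ∧ (b = 0 ∨ b = 1) ∧ inner a b = true := by decide
    obtain ⟨b, hb, hb2, hab⟩ := h a
    exact ⟨vx i b hb, Finset.mem_filter.2 ⟨Finset.mem_univ _, hb2⟩, Or.inl ⟨rfl, hab⟩⟩
  have hle : S.card ≤ 2 * f := by
    have hinj : Function.Injective fun x : W f => x.1 := Subtype.val_injective
    rw [← Finset.card_image_of_injective S hinj]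
    have hsub : S.image (fun x : W f => x.1) ⊆
        (Finset.univ : Finset (Fin f)) ×ˢ ({0, 1} : Finset (Fin 4)) := by
      intro p hp
      obtain ⟨x, hx, rfl⟩ := Finset.mem_image.1 hp
      rw [Finset.mem_product]
      refine ⟨Finset.mem_univ _, ?_⟩
      rw [Finset.mem_insert, Finset.mem_singleton]
      exact (Finset.mem_filter.1 hx).2
    refine (Finset.card_le_card hsub).trans ?_
    rw [Finset.card_product, Finset.card_univ, Fintype.card_fin]
    have : ({0, 1} : Finset (Fin 4)).card = 2 := by decide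
    rw [this, mul_comm]
  have h1 : gammaT (K f) ≤ S.card := Nat.sInf_le ⟨S, hS, rfl⟩
  exact h1.trans hle

theorem inClass_K (f : ℕ) (hf : 3 ≤ f) : InClass 2 (K f) := by
  have hf1 : 1 ≤ f := by omega
  constructor
  · intro c
    have hc : c.supp = Set.univ := by
      rw [Set.eq_univ_iff_forall]
      intro v
      rw [SimpleGraph.ConnectedComponent.mem_supp_iff]
      induction c using SimpleGraph.ConnectedComponent.ind with
      | _ w => exact SimpleGraph.ConnectedComponent.sound (connected_K f hf1 v w)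
    rw [hc, Set.ncard_univ, Nat.card_eq_fintype_card, card_W f hf1]
    omega
  · have h : {v : W f | ¬ InTriangle (K f) v} ⊆
        (({vx (⟨0, hf1⟩ : Fin f) 1 (by decide), vx (⟨0, hf1⟩ : Fin f) 2 (by decide)} :
          Finset (W f)) :
          Set (W f)) := by
      rintro ⟨⟨i, a⟩, hv⟩ hnt
      by_contra hcon
      apply hnt
      rw [Finset.coe_insert, Finset.coe_singleton, Set.mem_insert_iff, Set.mem_singleton_iff,
        not_or] at hcon
      by_cases ha : a = 0
      · -- two other vertices of the complete graph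
        subst ha
        obtain ⟨j, hj, k, hk, hjk⟩ : ∃ j : Fin f, j ≠ i ∧ ∃ k : Fin f, k ≠ i ∧ j ≠ k := by
          have hcard : 2 ≤ (Finset.univ.erase i : Finset (Fin f)).card := by
            rw [Finset.card_erase_of_mem (Finset.mem_univ _), Finset.card_univ, Fintype.card_fin]
            omega
          have hcard' : 1 < (Finset.univ.erase i : Finset (Fin f)).card := hcard
          obtain ⟨j, hj, k, hk, hjk⟩ := Finset.one_lt_card.1 hcard'
          exact ⟨j, Finset.ne_of_mem_erase hj, k, Finset.ne_of_mem_erase hk, hjk⟩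
        have ejk : (K f).Adj (vx j 0 (by decide)) (vx k 0 (by decide)) :=
          Or.inr ⟨hjk, rfl, rfl⟩
        have eij : (K f).Adj (⟨(i, 0), hv⟩ : W f) (vx j 0 (by decide)) :=
          Or.inr ⟨hj.symm, rfl, rfl⟩
        have eik : (K f).Adj (⟨(i, 0), hv⟩ : W f) (vx k 0 (by decide)) :=
          Or.inr ⟨hk.symm, rfl, rfl⟩
        exact ⟨_, _, eij, eik, ejk⟩
      · -- the triangle of the part
        have hi : ¬ (i.val = 0) := by
          intro hi0
          have hi' : i = ⟨0, hf1⟩ := Fin.ext hi0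
          have ha3 : a ≠ 3 := fun h3 => hv ⟨hi0, h3⟩
          have hcases : ∀ b : Fin 4, b ≠ 0 → b ≠ 3 → b = 1 ∨ b = 2 := by decide
          rcases hcases a ha ha3 with rfl | rfl
          · exact hcon.1 (Subtype.ext (Prod.ext hi' rfl))
          · exact hcon.2 (Subtype.ext (Prod.ext hi' rfl))
        have hall : ∀ b : Fin 4, ¬ ((i, b).1.val = 0 ∧ (i, b).2 = 3) := fun b h' => hi h'.1
        have htri : ∀ b : Fin 4, b ≠ 0 → ∃ c d : Fin 4, inner b c = true ∧ inner b d = true ∧
            inner c d = true := by decide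
        obtain ⟨c, d, h1, h2, h3⟩ := htri a ha
        exact ⟨⟨(i, c), hall c⟩, ⟨(i, d), hall d⟩, Or.inl ⟨rfl, h1⟩, Or.inl ⟨rfl, h2⟩,
          Or.inl ⟨rfl, h3⟩⟩
    refine (Set.ncard_le_ncard h (Finset.finite_toSet _)).trans ?_
    rw [Set.ncard_coe_finset]
    exact Finset.card_le_two

/-- **Negative answer to Q1.** For every `f ≥ 3` there is a connected graph with `4 f - 1` vertices
in the class `𝒢_2` with `γ_t = 2 f` and `α' ≤ 2 f - 1`. In particular (`f = 3`, `11` vertices) the
inequality `γ_t ≤ α'` fails in `𝒢_2`. -/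
theorem result :
    (∀ f : ℕ, 3 ≤ f → ∃ (V : Type) (_ : Fintype V) (_ : DecidableEq V) (G : SimpleGraph V),
      Fintype.card V = 4 * f - 1 ∧ G.Connected ∧ InClass 2 G ∧ gammaT G = 2 * f ∧
        matchingNum G ≤ 2 * f - 1) ∧
    ¬ ∀ (V : Type) [Fintype V] [DecidableEq V] (G : SimpleGraph V), InClass 2 G →
      gammaT G ≤ matchingNum G := by
  have h : ∀ f : ℕ, 3 ≤ f → matchingNum (K f) ≤ 2 * f - 1 := fun f hf =>
    matchingNum_le (by rw [card_W f (by omega)]; omega)
  refine ⟨fun f hf => ⟨W f, inferInstance, inferInstance, K f, card_W f (by omega),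
    connected_K f (by omega), inClass_K f hf,
    le_antisymm (gammaT_le f) (gammaT_ge f), h f hf⟩, ?_⟩
  intro hall
  have h1 := hall (W 3) (K 3) (inClass_K 3 le_rfl)
  have h2 := gammaT_ge 3
  have h3 := h 3 le_rfl
  omega

end Pool.Agent.Results.MP_7cc4cd_co.TwoExceptions
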